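import Pool.Agent.Y7.DDef
import Pool.Agent.Y7.Sp

/-!
The third power of a field, by its energy and its gradient (job DL3 of helper7's project Y7-D).
helper35.
-/

set_option autoImplicit false

open MeasureTheory Set Metric Filter Topology
open scoped ContDiff ENNReal NNReal

namespace Pool.Agent.Y35.D7

open H459R3.NS W221.NS Pool.Agent.W12.MD Pool.Agent.Y7.Poi Pool.Agent.Y7.Sp

theorem gg_nonneg (f : V → ℝ) (x : V) : 0 ≤ gg f x := Finset.sum_nonneg fun _ _ => sq_nonneg _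

theorem gg_cont {f : V → ℝ} (hf : ContDiff ℝ ∞ f) : Continuous (gg f) := by
  unfold gg
  exact continuous_finsetSum _ fun j _ => (smooth_pd hf j).continuous.pow 2

/-- The scalar inequality. -/
theorem scalar4 : ∃ K : ℝ, 0 < K ∧ ∀ f : V → ℝ, ContDiff ℝ ∞ f →
    √(∫ z in ball (0 : V) 4, f z ^ 4)
      ≤ K * ((∫ z in ball (0 : V) 8, gg f z) + ∫ z in ball (0 : V) 8, f z ^ 2) := by
  obtain ⟨M, hM0, hM⟩ := cf_fderiv_bdd
  set C : ℝ≥0 := eLpNormLESNormFDerivOfLeConst ℝ (volume : Measure V) (closedBall (0 : V) 8) 2 4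
    with hC
  refine ⟨(C : ℝ) ^ 2 * (18 + 2 * M ^ 2) + 1, by positivity, fun f hf => ?_⟩
  have hfc := hf.continuous
  have hf1 : ContDiff ℝ 1 f := hf.of_le (by norm_cast)
  have hc1 : ContDiff ℝ 1 cf := cf_smooth.of_le (by norm_cast)
  set g : V → ℝ := fun x => cf x * f x with hg
  have hgs : ContDiff ℝ 1 g := hc1.mul hf1
  have hsupp : Function.support g ⊆ closedBall (0 : V) 8 := by
    intro x hx
    by_contra h
    apply hx
    simp only [hg]
    rw [cf_out fun h' => h (ball_subset_closedBall h'), zero_mul]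
  have hfin : Module.finrank ℝ V = 3 := by simp
  have h1 : eLpNorm g ((4 : ℝ≥0) : ℝ≥0∞) volume
      ≤ C * eLpNorm (fderiv ℝ g) ((2 : ℝ≥0) : ℝ≥0∞) volume :=
    eLpNorm_le_eLpNorm_fderiv_of_le (volume : Measure V) (p := 2) (q := 4) hgs hsupp
      (by norm_num) (by rw [hfin]; norm_num) (by rw [hfin]; push_cast; norm_num)
      isBounded_closedBall
  rw [eLpNorm_eq_lintegral_rpow_enorm_toReal (by norm_num) (by norm_num),
    eLpNorm_eq_lintegral_rpow_enorm_toReal (by norm_num) (by norm_num)] at h1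
  have e4 : ((4 : ℝ≥0) : ℝ≥0∞).toReal = 4 := by norm_num
  have e2 : ((2 : ℝ≥0) : ℝ≥0∞).toReal = 2 := by norm_num
  rw [e4, e2] at h1
  -- the gradient of the product
  set b : ℝ := 18 * (∫ z in ball (0 : V) 8, gg f z) + 2 * M ^ 2 * ∫ z in ball (0 : V) 8, f z ^ 2
    with hb
  have hgi : IntegrableOn (gg f) (ball (0 : V) 8) := intB (gg_cont hf) _ _
  have hfi : IntegrableOn (fun z => f z ^ 2) (ball (0 : V) 8) := intB (hfc.pow 2) _ _
  have hG0 : 0 ≤ ∫ z in ball (0 : V) 8, gg f z := integral_nonneg fun z => gg_nonneg f z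
  have hF0 : 0 ≤ ∫ z in ball (0 : V) 8, f z ^ 2 := integral_nonneg fun z => sq_nonneg _
  have hb0 : 0 ≤ b := by positivity
  have h3 : ∀ x, ‖fderiv ℝ g x‖ₑ ^ (2 : ℝ) ≤ (ball (0 : V) 8).indicator
      (fun x => ENNReal.ofReal (18 * gg f x + 2 * M ^ 2 * f x ^ 2)) x := by
    intro x
    have hd : HasFDerivAt g (cf x • fderiv ℝ f x + f x • fderiv ℝ cf x) x :=
      ((hc1.differentiable one_ne_zero x).hasFDerivAt).mul
        (hf1.differentiable one_ne_zero x).hasFDerivAt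
    rw [hd.fderiv]
    by_cases hx : x ∈ ball (0 : V) 8
    · rw [indicator_of_mem hx]
      have a1 : ‖cf x • fderiv ℝ f x + f x • fderiv ℝ cf x‖ ≤ 3 * √(gg f x) + M * |f x| := by
        refine (norm_add_le _ _).trans ?_
        rw [norm_smul, norm_smul, Real.norm_eq_abs, Real.norm_eq_abs, abs_of_nonneg (cf_nonneg x)]
        have b1 : ‖fderiv ℝ f x‖ ≤ 3 * √(gg f x) := by
          refine (Pool.Agent.W440.MD.fderiv_norm_le x).trans ?_
          have b2 : ∀ j ∈ (Finset.univ : Finset (Fin 3)), |pd j f x| ≤ √(gg f x) := by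
            intro j _
            apply Real.abs_le_sqrt
            exact Finset.single_le_sum (f := fun j => pd j f x ^ 2) (fun _ _ => sq_nonneg _)
              (Finset.mem_univ j)
          refine (Finset.sum_le_sum b2).trans (le_of_eq ?_)
          simp
        have b3 : cf x * ‖fderiv ℝ f x‖ ≤ 1 * (3 * √(gg f x)) :=
          mul_le_mul (cf_le x) b1 (norm_nonneg _) zero_le_one
        have b4 : |f x| * ‖fderiv ℝ cf x‖ ≤ |f x| * M :=
          mul_le_mul_of_nonneg_left (hM x) (abs_nonneg _)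
        linarith
      rw [← ofReal_norm, ENNReal.ofReal_rpow_of_nonneg (norm_nonneg _) (by norm_num)]
      apply ENNReal.ofReal_le_ofReal
      have a2 : ‖cf x • fderiv ℝ f x + f x • fderiv ℝ cf x‖ ^ 2 ≤
          (3 * √(gg f x) + M * |f x|) ^ 2 := by gcongr
      have a3 : (3 * √(gg f x) + M * |f x|) ^ 2 ≤ 18 * gg f x + 2 * M ^ 2 * f x ^ 2 := by
        have s1 : √(gg f x) ^ 2 = gg f x := Real.sq_sqrt (gg_nonneg f x)
        have s2 : |f x| ^ 2 = f x ^ 2 := sq_abs _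
        nlinarith [sq_nonneg (3 * √(gg f x) - M * |f x|)]
      have a4 : ‖cf x • fderiv ℝ f x + f x • fderiv ℝ cf x‖ ^ (2 : ℝ) =
          ‖cf x • fderiv ℝ f x + f x • fderiv ℝ cf x‖ ^ 2 := by norm_cast
      rw [a4]
      exact a2.trans a3
    · rw [indicator_of_notMem hx, cf_out hx, cf_fderiv_out hx, zero_smul, smul_zero, add_zero,
        ← ofReal_norm, norm_zero, ENNReal.ofReal_zero, ENNReal.zero_rpow_of_pos (by norm_num)]
  have h4 : ∫⁻ x, ‖fderiv ℝ g x‖ₑ ^ (2 : ℝ) ≤ ENNReal.ofReal b := by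
    refine (lintegral_mono h3).trans ?_
    have hsi : IntegrableOn (fun x => 18 * gg f x + 2 * M ^ 2 * f x ^ 2) (ball (0 : V) 8) :=
      (hgi.const_mul 18).add (hfi.const_mul (2 * M ^ 2))
    have hs0 : ∀ x, 0 ≤ 18 * gg f x + 2 * M ^ 2 * f x ^ 2 := fun x => by
      have h1 := gg_nonneg f x
      have h2 : 0 ≤ 2 * M ^ 2 * f x ^ 2 := by positivity
      linarith
    rw [lintegral_indicator measurableSet_ball, ← ofReal_integral_eq_lintegral_ofReal hsi
      (Filter.Eventually.of_forall hs0)]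
    apply ENNReal.ofReal_le_ofReal
    rw [integral_add (hgi.const_mul 18) (hfi.const_mul (2 * M ^ 2)), integral_const_mul,
      integral_const_mul]
  -- the fourth power
  have h7 : ∫⁻ x, ‖g x‖ₑ ^ (4 : ℝ) ≤ (C : ℝ≥0∞) ^ (4 : ℝ) *
      (∫⁻ x, ‖fderiv ℝ g x‖ₑ ^ (2 : ℝ)) ^ (2 : ℝ) := by
    have h8 := ENNReal.rpow_le_rpow h1 (show (0 : ℝ) ≤ 4 by norm_num)
    rw [ENNReal.mul_rpow_of_nonneg _ _ (by norm_num), ← ENNReal.rpow_mul, ← ENNReal.rpow_mul] at h8
    norm_num at h8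
    norm_num
    exact h8
  have h4i : IntegrableOn (fun z => f z ^ 4) (ball (0 : V) 4) := intB (hfc.pow 4) _ _
  have h9 : ENNReal.ofReal (∫ z in ball (0 : V) 4, f z ^ 4) ≤ ∫⁻ x, ‖g x‖ₑ ^ (4 : ℝ) := by
    rw [ofReal_integral_eq_lintegral_ofReal h4i (Filter.Eventually.of_forall fun s => by positivity)]
    refine le_trans ?_ (setLIntegral_le_lintegral (ball (0 : V) 4) _)
    refine setLIntegral_mono' measurableSet_ball fun x hx => ?_
    simp only [hg]
    rw [cf_in hx, one_mul, ← ofReal_norm, Real.norm_eq_abs,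
      ENNReal.ofReal_rpow_of_nonneg (abs_nonneg _) (by norm_num)]
    apply ENNReal.ofReal_le_ofReal
    have e5 : |f x| ^ (4 : ℝ) = |f x| ^ 4 := by norm_cast
    rw [e5]
    have e6 : |f x| ^ 4 = f x ^ 4 := by
      have : |f x| ^ 4 = (|f x| ^ 2) ^ 2 := by ring
      rw [this, sq_abs]
      ring
    rw [e6]
  have h10 : ENNReal.ofReal (∫ z in ball (0 : V) 4, f z ^ 4) ≤
      ENNReal.ofReal ((C : ℝ) ^ 4 * b ^ 2) := by
    refine h9.trans (h7.trans ?_)
    have h11 := ENNReal.rpow_le_rpow h4 (show (0 : ℝ) ≤ 2 by norm_num)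
    refine (mul_le_mul_right h11 _).trans (le_of_eq ?_)
    rw [ENNReal.ofReal_rpow_of_nonneg hb0 (by norm_num), ENNReal.ofReal_mul (by positivity)]
    congr 1
    · have : ((C : ℝ≥0∞) ^ (4 : ℝ)) = (C : ℝ≥0∞) ^ 4 := by norm_cast
      rw [this, ENNReal.ofReal_pow (NNReal.coe_nonneg C), ENNReal.ofReal_coe_nnreal]
    · norm_cast
  have h12 : (∫ z in ball (0 : V) 4, f z ^ 4) ≤ (C : ℝ) ^ 4 * b ^ 2 :=
    (ENNReal.ofReal_le_ofReal_iff (by positivity)).1 h10
  have h13 : √(∫ z in ball (0 : V) 4, f z ^ 4) ≤ (C : ℝ) ^ 2 * b := by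
    rw [Real.sqrt_le_left (by positivity)]
    refine h12.trans (le_of_eq ?_)
    ring
  refine h13.trans ?_
  rw [hb]
  have hC2 : (0 : ℝ) ≤ (C : ℝ) ^ 2 := by positivity
  have m1 : 18 * (∫ z in ball (0 : V) 8, gg f z) ≤ (18 + 2 * M ^ 2) *
      (∫ z in ball (0 : V) 8, gg f z) := by
    have : 0 ≤ 2 * M ^ 2 * (∫ z in ball (0 : V) 8, gg f z) := by positivity
    linarith
  have m2 : 2 * M ^ 2 * (∫ z in ball (0 : V) 8, f z ^ 2) ≤ (18 + 2 * M ^ 2) *
      (∫ z in ball (0 : V) 8, f z ^ 2) := by linarith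
  have m3 := mul_le_mul_of_nonneg_left (add_le_add m1 m2) hC2
  linarith

theorem norm_sq_le (v : V → V) (x : V) : ‖v x‖ ^ 2 ≤ nsq v x := by
  obtain ⟨i, hi⟩ : ∃ i, ‖v x‖ = |v x i| := by
    obtain ⟨i, -, hi⟩ := Finset.exists_mem_eq_sup' (s := (Finset.univ : Finset (Fin 3)))
      ⟨0, Finset.mem_univ _⟩ (fun i => ‖v x i‖₊)
    refine ⟨i, ?_⟩
    have : ‖v x‖₊ = ‖v x i‖₊ := by
      rw [Pi.nnnorm_def, ← Finset.sup'_eq_sup ⟨0, Finset.mem_univ _⟩]
      exact hi
    rw [← Real.norm_eq_abs]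
    exact congrArg NNReal.toReal this
  rw [hi, sq_abs]
  exact Finset.single_le_sum (f := fun i => v x i ^ 2) (fun _ _ => sq_nonneg _) (Finset.mem_univ i)

theorem nsq_nonneg (v : V → V) (x : V) : 0 ≤ nsq v x := Finset.sum_nonneg fun _ _ => sq_nonneg _

theorem nsq_cont {v : V → V} (hv : ContDiff ℝ ∞ v) : Continuous (nsq v) := by
  unfold nsq
  exact continuous_finsetSum _ fun i _ => (smooth_comp hv i).continuous.pow 2

/-- The Cauchy-Schwarz inequality. -/
theorem cs {f g : V → ℝ} (hf : Continuous f) (hg : Continuous g) (hf0 : ∀ x, 0 ≤ f x)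
    (hg0 : ∀ x, 0 ≤ g x) (ρ : ℝ) :
    ∫ z in ball (0 : V) ρ, f z * g z ≤
      √(∫ z in ball (0 : V) ρ, f z ^ 2) * √(∫ z in ball (0 : V) ρ, g z ^ 2) := by
  have hm : ∀ h : V → ℝ, Continuous h → MemLp h (ENNReal.ofReal 2)
      (volume.restrict (ball (0 : V) ρ)) := by
    intro h hh
    have : MemLp h 2 (volume.restrict (ball (0 : V) ρ)) :=
      (memLp_two_iff_integrable_sq hh.aestronglyMeasurable).2 (intB (hh.pow 2) _ _)
    simpa using this
  have h1 := integral_mul_le_Lp_mul_Lq_of_nonneg (μ := volume.restrict (ball (0 : V) ρ))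
    Real.HolderConjugate.two_two (Filter.Eventually.of_forall hf0)
    (Filter.Eventually.of_forall hg0) (hm f hf) (hm g hg)
  rw [Real.sqrt_eq_rpow, Real.sqrt_eq_rpow]
  norm_cast at h1 ⊢

/-- The inequality on the balls of radius `4` and `8`. -/
theorem unit_scale : ∃ K : ℝ, 0 < K ∧ ∀ v : V → V, ContDiff ℝ ∞ v →
    ∫ z in ball (0 : V) 4, ‖v z‖ ^ 3 ≤ K * √(∫ z in ball (0 : V) 8, nsq v z) *
      ((∫ z in ball (0 : V) 8, gsq v z) + ∫ z in ball (0 : V) 8, nsq v z) := by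
  obtain ⟨K, hK, hs⟩ := scalar4
  refine ⟨2 * K, by positivity, fun v hv => ?_⟩
  have hvi := smooth_comp hv
  have hvc : Continuous v := hv.continuous
  have hn := nsq_cont hv
  have h1 : ∫ z in ball (0 : V) 4, ‖v z‖ ^ 3 ≤ ∫ z in ball (0 : V) 4, ‖v z‖ * nsq v z := by
    refine setIntegral_mono (intB (hvc.norm.pow 3) _ _) (intB (hvc.norm.mul hn) _ _) fun z => ?_
    have := mul_le_mul_of_nonneg_left (norm_sq_le v z) (norm_nonneg (v z))
    calc ‖v z‖ ^ 3 = ‖v z‖ * ‖v z‖ ^ 2 := by ring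
      _ ≤ _ := this
  have h2 := cs hvc.norm hn (fun x => norm_nonneg _) (nsq_nonneg v) 4
  have h3 : √(∫ z in ball (0 : V) 4, ‖v z‖ ^ 2) ≤ √(∫ z in ball (0 : V) 8, nsq v z) := by
    apply Real.sqrt_le_sqrt
    calc ∫ z in ball (0 : V) 4, ‖v z‖ ^ 2 ≤ ∫ z in ball (0 : V) 4, nsq v z :=
          setIntegral_mono (intB (hvc.norm.pow 2) _ _) (intB hn _ _) fun z => norm_sq_le v z
      _ ≤ _ := setIntegral_mono_set (intB hn _ _) (Filter.Eventually.of_forall (nsq_nonneg v))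
          (HasSubset.Subset.eventuallyLE (ball_subset_ball (by norm_num)))
  have h4 : √(∫ z in ball (0 : V) 4, nsq v z ^ 2) ≤
      2 * ∑ i : Fin 3, √(∫ z in ball (0 : V) 4, v z i ^ 4) := by
    have a1 : ∫ z in ball (0 : V) 4, nsq v z ^ 2 ≤
        3 * ∑ i : Fin 3, ∫ z in ball (0 : V) 4, v z i ^ 4 := by
      have hi4 : ∀ i ∈ (Finset.univ : Finset (Fin 3)),
          IntegrableOn (fun z => v z i ^ 4) (ball (0 : V) 4) := fun i _ =>
        intB ((hvi i).continuous.pow 4) _ _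
      rw [← integral_finsetSum _ hi4, ← integral_const_mul]
      refine setIntegral_mono (intB (hn.pow 2) _ _) (intB (continuous_const.mul
        (continuous_finsetSum _ fun i _ => (hvi i).continuous.pow 4)) _ _) fun z => ?_
      have h6 := sq_sum_le_card_mul_sum_sq (s := (Finset.univ : Finset (Fin 3)))
        (f := fun i => v z i ^ 2)
      simp only [Finset.card_univ, Fintype.card_fin] at h6
      refine h6.trans (le_of_eq ?_)
      push_cast
      congr 1
      exact Finset.sum_congr rfl fun i _ => by ring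
    have a2 : ∀ i : Fin 3, 0 ≤ ∫ z in ball (0 : V) 4, v z i ^ 4 := fun i =>
      integral_nonneg fun z => by positivity
    rw [Real.sqrt_le_left (by positivity)]
    refine a1.trans ?_
    have a3 : ∑ i : Fin 3, ∫ z in ball (0 : V) 4, v z i ^ 4 ≤
        (∑ i : Fin 3, √(∫ z in ball (0 : V) 4, v z i ^ 4)) ^ 2 := by
      simp only [Fin.sum_univ_three]
      have s0 := Real.sq_sqrt (a2 0)
      have s1 := Real.sq_sqrt (a2 1)
      have s2 := Real.sq_sqrt (a2 2)
      have t0 := Real.sqrt_nonneg (∫ z in ball (0 : V) 4, v z 0 ^ 4)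
      have t1 := Real.sqrt_nonneg (∫ z in ball (0 : V) 4, v z 1 ^ 4)
      have t2 := Real.sqrt_nonneg (∫ z in ball (0 : V) 4, v z 2 ^ 4)
      nlinarith [mul_nonneg t0 t1, mul_nonneg t0 t2, mul_nonneg t1 t2]
    have a4 : 0 ≤ ∑ i : Fin 3, ∫ z in ball (0 : V) 4, v z i ^ 4 :=
      Finset.sum_nonneg fun i _ => a2 i
    nlinarith
  have h5 : ∑ i : Fin 3, √(∫ z in ball (0 : V) 4, v z i ^ 4) ≤
      K * ((∫ z in ball (0 : V) 8, gsq v z) + ∫ z in ball (0 : V) 8, nsq v z) := by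
    have b1 : ∫ z in ball (0 : V) 8, gsq v z =
        ∑ i : Fin 3, ∫ z in ball (0 : V) 8, gg (fun y => v y i) z := by
      have hi : ∀ i ∈ (Finset.univ : Finset (Fin 3)),
          IntegrableOn (fun z => gg (fun y => v y i) z) (ball (0 : V) 8) := fun i _ =>
        intB (gg_cont (hvi i)) _ _
      rw [← integral_finsetSum _ hi]
      rfl
    have b2 : ∫ z in ball (0 : V) 8, nsq v z =
        ∑ i : Fin 3, ∫ z in ball (0 : V) 8, v z i ^ 2 := by
      have hi : ∀ i ∈ (Finset.univ : Finset (Fin 3)),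
          IntegrableOn (fun z => v z i ^ 2) (ball (0 : V) 8) := fun i _ =>
        intB ((hvi i).continuous.pow 2) _ _
      rw [← integral_finsetSum _ hi]
      rfl
    rw [b1, b2, ← Finset.sum_add_distrib, Finset.mul_sum]
    exact Finset.sum_le_sum fun i _ => hs _ (hvi i)
  have hN : 0 ≤ √(∫ z in ball (0 : V) 8, nsq v z) := Real.sqrt_nonneg _
  calc ∫ z in ball (0 : V) 4, ‖v z‖ ^ 3
      ≤ √(∫ z in ball (0 : V) 4, ‖v z‖ ^ 2) * √(∫ z in ball (0 : V) 4, nsq v z ^ 2) := h1.trans h2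
    _ ≤ √(∫ z in ball (0 : V) 8, nsq v z) *
        (2 * (K * ((∫ z in ball (0 : V) 8, gsq v z) + ∫ z in ball (0 : V) 8, nsq v z))) := by
        refine mul_le_mul h3 (h4.trans ?_) (Real.sqrt_nonneg _) hN
        linarith
    _ = _ := by ring

/-- A change of scale. -/
theorem cov (F : V → ℝ) (a : V) {r ρ : ℝ} (hr : 0 < r) :
    ∫ w in ball (0 : V) ρ, F (a + r • w) = (r ^ 3)⁻¹ * ∫ y in ball a (r * ρ), F y := by
  have h := Measure.setIntegral_comp_smul_of_pos volume (fun x => F (a + x)) (ball (0 : V) ρ) hr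
  have h3 : Module.finrank ℝ V = 3 := by simp
  rw [h3, _root_.smul_ball hr.ne', smul_zero, Real.norm_eq_abs, abs_of_pos hr] at h
  rw [h, smul_eq_mul]
  congr 1
  rw [← integral_indicator measurableSet_ball, ← integral_indicator measurableSet_ball,
    ← integral_add_left_eq_self (μ := (volume : Measure V)) ((ball a (r * ρ)).indicator F) a]
  congr 1
  ext x
  by_cases hx : x ∈ ball (0 : V) (r * ρ)
  · have hx' : a + x ∈ ball a (r * ρ) := by
      rw [mem_ball, dist_eq_norm, add_sub_cancel_left]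
      rwa [mem_ball, dist_zero_right] at hx
    rw [indicator_of_mem hx, indicator_of_mem hx']
  · have hx' : a + x ∉ ball a (r * ρ) := by
      rw [mem_ball, dist_eq_norm, add_sub_cancel_left]
      rwa [mem_ball, dist_zero_right] at hx
    rw [indicator_of_notMem hx, indicator_of_notMem hx']

theorem gsq_scale {w : V → V} (hw : ContDiff ℝ ∞ w) (r : ℝ) (y z : V) :
    gsq (fun z => w (y + r • z)) z = r ^ 2 * gsq w (y + r • z) := by
  have hp : ∀ i j, pd j (fun z => w (y + r • z) i) z = r * pd j (fun y => w y i) (y + r • z) := by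
    intro i j
    have hd : HasFDerivAt (fun z => w (y + r • z) i)
        ((fderiv ℝ (fun y => w y i) (y + r • z)).comp (r • ContinuousLinearMap.id ℝ V)) z := by
      have h1 : HasFDerivAt (fun z : V => y + r • z) (r • ContinuousLinearMap.id ℝ V) z :=
        ((hasFDerivAt_id z).const_smul r).const_add y
      exact HasFDerivAt.comp z ((smooth_comp hw i).differentiable (by simp) _).hasFDerivAt h1
    unfold pd
    rw [hd.fderiv]
    simp
  unfold gsq
  rw [Finset.mul_sum]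
  refine Finset.sum_congr rfl fun i _ => ?_
  rw [Finset.mul_sum]
  refine Finset.sum_congr rfl fun j _ => ?_
  rw [hp i j]
  ring

theorem dl3 : Pool.Agent.Y7.D.S_DL3 := by
  obtain ⟨K, hK, hu⟩ := unit_scale
  refine ⟨64 * K, by positivity, fun v hv x₀ R hR => ?_⟩
  obtain ⟨r, hr⟩ : ∃ r : ℝ, r = R / 8 := ⟨_, rfl⟩
  have hr0 : 0 < r := by rw [hr]; positivity
  obtain ⟨u, hudef⟩ : ∃ u : V → V, u = fun z => v (x₀ + r • z) := ⟨_, rfl⟩
  have hus : ContDiff ℝ ∞ u := by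
    rw [hudef]
    exact hv.comp (by fun_prop)
  have h1 := hu u hus
  have e4 : r * 4 = R / 2 := by rw [hr]; ring
  have e8 : r * 8 = R := by rw [hr]; ring
  have c1 : ∫ z in ball (0 : V) 4, ‖u z‖ ^ 3 = (r ^ 3)⁻¹ * ∫ x in ball x₀ (R / 2), ‖v x‖ ^ 3 := by
    rw [hudef, ← e4]
    exact cov (fun x => ‖v x‖ ^ 3) x₀ hr0
  have c2 : ∫ z in ball (0 : V) 8, nsq u z = (r ^ 3)⁻¹ * ∫ x in ball x₀ R, nsq v x := by
    have := cov (ρ := 8) (fun x => nsq v x) x₀ hr0
    rw [e8] at this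
    rw [← this, hudef]
    rfl
  have c3 : ∫ z in ball (0 : V) 8, gsq u z = r⁻¹ * ∫ x in ball x₀ R, gsq v x := by
    have := cov (ρ := 8) (fun x => gsq v x) x₀ hr0
    rw [e8] at this
    rw [hudef]
    simp_rw [gsq_scale hv]
    rw [integral_const_mul, this]
    field_simp
  have hA0 : 0 ≤ ∫ x in ball x₀ R, nsq v x := integral_nonneg fun z => nsq_nonneg v z
  have hB0 : 0 ≤ ∫ x in ball x₀ R, gsq v x := integral_nonneg fun z => Pool.Agent.Y7.Sp.gsq_nonneg v z
  rw [c1, c2, c3] at h1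
  have h3i : IntegrableOn (fun x => ‖v x‖ ^ 3) (ball x₀ (R / 2)) :=
    intB (hv.continuous.norm.pow 3) _ _
  rw [← ofReal_integral_eq_lintegral_ofReal h3i
    (Filter.Eventually.of_forall fun s => by positivity)]
  apply ENNReal.ofReal_le_ofReal
  obtain ⟨A, hA⟩ : ∃ A, A = ∫ x in ball x₀ R, nsq v x := ⟨_, rfl⟩
  obtain ⟨B, hB⟩ : ∃ B, B = ∫ x in ball x₀ R, gsq v x := ⟨_, rfl⟩
  obtain ⟨L, hL⟩ : ∃ L, L = ∫ x in ball x₀ (R / 2), ‖v x‖ ^ 3 := ⟨_, rfl⟩
  rw [← hA, ← hB, ← hL] at h1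
  rw [← hA] at hA0
  rw [← hB] at hB0
  rw [← hA, ← hB, ← hL]
  -- the powers of the scale
  have hsr : √(r ^ 3) = r * √r := by
    have : r ^ 3 = r ^ 2 * r := by ring
    rw [this, Real.sqrt_mul (by positivity), Real.sqrt_sq hr0.le]
  have hs0 : 0 < √r := Real.sqrt_pos.2 hr0
  have hss : √r * √r = r := Real.mul_self_sqrt hr0.le
  have h2 : L ≤ r ^ 3 * (K * √((r ^ 3)⁻¹ * A) * (r⁻¹ * B + (r ^ 3)⁻¹ * A)) := by
    have h3 := mul_le_mul_of_nonneg_left h1 (show 0 ≤ r ^ 3 by positivity)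
    rwa [← mul_assoc, mul_inv_cancel₀ (by positivity), one_mul] at h3
  have h4 : √((r ^ 3)⁻¹ * A) = (r * √r)⁻¹ * √A := by
    rw [Real.sqrt_mul (by positivity), Real.sqrt_inv, hsr]
  have h5 : r ^ 3 * (K * √((r ^ 3)⁻¹ * A) * (r⁻¹ * B + (r ^ 3)⁻¹ * A)) =
      K * √A * (√r * (B + A / r ^ 2)) := by
    rw [h4]
    have h6 : r ^ 3 * (r * √r)⁻¹ * r⁻¹ = √r := by
      rw [mul_inv]
      field_simp
      nlinarith
    calc r ^ 3 * (K * ((r * √r)⁻¹ * √A) * (r⁻¹ * B + (r ^ 3)⁻¹ * A))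
        = K * √A * ((r ^ 3 * (r * √r)⁻¹ * r⁻¹) * (B + A / r ^ 2)) := by
          field_simp
      _ = _ := by rw [h6]
  rw [h5] at h2
  refine h2.trans ?_
  have hrR : √r ≤ √R := Real.sqrt_le_sqrt (by rw [hr]; linarith)
  have h7 : B + A / r ^ 2 ≤ 64 * (B + A / R ^ 2) := by
    have : A / r ^ 2 = 64 * (A / R ^ 2) := by
      rw [hr]
      field_simp
      ring
    rw [this]
    linarith
  have h8 : √r * (B + A / r ^ 2) ≤ √R * (64 * (B + A / R ^ 2)) :=
    mul_le_mul hrR h7 (by positivity) (Real.sqrt_nonneg _)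
  calc K * √A * (√r * (B + A / r ^ 2)) ≤ K * √A * (√R * (64 * (B + A / R ^ 2))) :=
        mul_le_mul_of_nonneg_left h8 (by positivity)
    _ = _ := by ring

end Pool.Agent.Y35.D7
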